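import Pool.Agent.H66.GUA.Targets

/-!
# Project GU (MP_c59857_nt), row KR: refining the residue classes
-/

set_option autoImplicit false

open Finset

namespace Pool.Agent.H42.GUA

open Pool.Agent.H31.DP Pool.Agent.H31.DPD Pool.Agent.H66.GUA

theorem kr_add (x y : ℝ) : ee (x + y) = ee x * ee y := by
  unfold ee
  rw [← Complex.exp_add]
  congr 1
  push_cast
  ring

theorem kr_conj (x : ℝ) : (starRingEnd ℂ) (ee x) = ee (-x) := by
  unfold ee
  rw [← Complex.exp_conj]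
  congr 1
  rw [map_mul, map_mul, map_mul, Complex.conj_I, Complex.conj_ofReal, Complex.conj_ofReal,
    Complex.conj_ofNat]
  push_cast
  ring

theorem kr_zero : ee 0 = 1 := by
  unfold ee
  simp

/-- the correlations of the twisted function -/
theorem kr_corr (a : ℤ → ℝ) (M p : ℕ) (θ : ℝ) (ha : ∀ y, y ∉ Finset.Icc (1 : ℤ) M → a y = 0)
    (s : ℤ) : corr (fun y => ((a y : ℝ) : ℂ) * ee (y * (θ / p))) M s =
      ee (s * (θ / p)) * ((∑ y ∈ Finset.Icc (1 : ℤ) M, a y * a (y + s) : ℝ) : ℂ) := by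
  have h1 : ∑ y ∈ Finset.Icc (1 : ℤ) M, a y * a (y + s) = ∑ y ∈ IM M s, a y * a (y + s) := by
    unfold IM
    rw [Finset.sum_filter]
    refine Finset.sum_congr rfl fun y _ => ?_
    by_cases h : 1 ≤ y + s ∧ y + s ≤ M
    · rw [if_pos h]
    · rw [if_neg h, ha (y + s) (fun h' => h (Finset.mem_Icc.1 h')), mul_zero]
  rw [h1, Complex.ofReal_sum, Finset.mul_sum]
  unfold corr
  refine Finset.sum_congr rfl fun y _ => ?_
  rw [map_mul, Complex.conj_ofReal, kr_conj]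
  have e : ee (((y + s : ℤ) : ℝ) * (θ / p)) = ee (y * (θ / p)) * ee (s * (θ / p)) := by
    rw [← kr_add]
    congr 1
    push_cast
    ring
  have e2 : ee (-(y * (θ / p))) * ee (y * (θ / p)) = 1 := by
    rw [← kr_add, neg_add_cancel, kr_zero]
  change ((a y : ℝ) : ℂ) * ee (-(y * (θ / p))) * (((a (y + s) : ℝ) : ℂ) *
    ee (((y + s : ℤ) : ℝ) * (θ / p))) = ee (s * (θ / p)) * ((a y * a (y + s) : ℝ) : ℂ)
  rw [e, Complex.ofReal_mul]
  linear_combination (((a y : ℝ) : ℂ) * ((a (y + s) : ℝ) : ℂ) * ee (s * (θ / p))) * e2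

theorem pf_KR (hKA : StatementKA) (hKB : StatementKB) : T_KR := by
  intro a M p Q θ hp hQ hpQ ha
  have hp1 : (0 : ℝ) < p := by exact_mod_cast hp
  have key : ∀ D : ℕ, 0 < D → (∑ s ∈ mul D M, ee (s * (θ / p)) *
      ((∑ y ∈ Finset.Icc (1 : ℤ) M, a y * a (y + s) : ℝ) : ℂ)).re =
      ∑ r ∈ Finset.range D, ‖cls (fun y => ((a y : ℝ) : ℂ) * ee (y * (θ / p))) M D r‖ ^ 2 := by
    intro D hD
    have h1 := hKA (fun y => ((a y : ℝ) : ℂ) * ee (y * (θ / p))) M D hD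
    rw [Finset.sum_congr rfl fun s _ => kr_corr a M p θ ha s] at h1
    rw [← h1, Complex.ofReal_re]
  rw [key p hp, key Q hQ]
  have h4 := hKB (fun y => ((a y : ℝ) : ℂ) * ee (y * (θ / p))) M p Q hQ hpQ
  have h5 := mul_le_mul_of_nonneg_left h4 hp1.le
  refine h5.trans (le_of_eq ?_)
  rw [← mul_assoc, mul_div_cancel₀ _ hp1.ne']

end Pool.Agent.H42.GUA
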