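import Pool.Agent.H66.GUA.Targets

/-!
# Project GU (MP_c59857_nt), row SR: the square of the sum over the multiples of `p`
-/

set_option autoImplicit false

open Finset

namespace Pool.Agent.H42.GUA

open Pool.Agent.H31.DP Pool.Agent.H31.DPD Pool.Agent.H66.GUA

theorem ee_add (x y : ℝ) : ee (x + y) = ee x * ee y := by
  unfold ee
  rw [← Complex.exp_add]
  congr 1
  push_cast
  ring

theorem ee_conj (x : ℝ) : (starRingEnd ℂ) (ee x) = ee (-x) := by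
  unfold ee
  rw [← Complex.exp_conj]
  congr 1
  rw [map_mul, map_mul, map_mul, Complex.conj_I, Complex.conj_ofReal, Complex.conj_ofReal,
    Complex.conj_ofNat]
  push_cast
  ring

theorem bal_add (p : ℕ) (y : ℤ) : 1 + bal p y = if (p : ℤ) ∣ y then (p : ℝ) else 0 := by
  unfold bal ind
  by_cases hy : (p : ℤ) ∣ y
  · rw [if_pos hy, if_pos hy]
    ring
  · rw [if_neg hy, if_neg hy]
    ring

theorem inner_eq (a : ℤ → ℝ) (M p : ℕ) (ha : ∀ y, y ∉ Finset.Icc (1 : ℤ) M → a y = 0) (s : ℤ) :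
    ∑ y ∈ Finset.Icc (1 : ℤ) M, (1 + bal p y) * (a y * a (y + s)) =
      ∑ y ∈ (IM M s).filter (fun y => (p : ℤ) ∣ y), (p : ℝ) * (a y * a (y + s)) := by
  unfold IM
  rw [Finset.filter_filter, Finset.sum_filter]
  refine Finset.sum_congr rfl fun y _ => ?_
  rw [bal_add]
  by_cases hy : (p : ℤ) ∣ y
  · by_cases h : 1 ≤ y + s ∧ y + s ≤ M
    · rw [if_pos hy, if_pos ⟨h, hy⟩]
    · rw [if_pos hy, if_neg fun h' => h h'.1, ha (y + s) (fun h' => h (Finset.mem_Icc.1 h'))]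
      ring
  · rw [if_neg hy, if_neg fun h' => hy h'.2, zero_mul]

theorem pf_SR : T_SR := by
  intro a M p θ hp ha
  have h1 : ((‖∑ y ∈ (Finset.Icc (1 : ℤ) M).filter (fun y => (p : ℤ) ∣ y),
      ((a y : ℝ) : ℂ) * ee (y * (θ / p))‖ ^ 2 : ℝ) : ℂ) =
      ∑ x ∈ (Finset.Icc (1 : ℤ) M).filter (fun y => (p : ℤ) ∣ y) ×ˢ
        (Finset.Icc (1 : ℤ) M).filter (fun y => (p : ℤ) ∣ y),
        ee ((x.2 - x.1) * (θ / p)) * ((a x.1 * a x.2 : ℝ) : ℂ) := by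
    have h2 : ∀ S : ℂ, ((‖S‖ ^ 2 : ℝ) : ℂ) = (starRingEnd ℂ) S * S := fun S => by
      rw [mul_comm, Complex.mul_conj, Complex.normSq_eq_norm_sq]
    rw [h2, map_sum, Finset.sum_mul_sum, ← Finset.sum_product']
    refine Finset.sum_congr rfl fun x _ => ?_
    rw [map_mul, Complex.conj_ofReal, ee_conj]
    have h3 : ee ((x.2 - x.1) * (θ / p)) = ee (-(x.1 * (θ / p))) * ee (x.2 * (θ / p)) := by
      rw [← ee_add]
      congr 1
      ring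
    rw [h3]
    push_cast
    ring
  have h4 : ∑ s ∈ mul p M, ee (s * (θ / p)) *
        ((∑ y ∈ Finset.Icc (1 : ℤ) M, (1 + bal p y) * (a y * a (y + s)) : ℝ) : ℂ) =
      p * ∑ x ∈ (Finset.Icc (1 : ℤ) M).filter (fun y => (p : ℤ) ∣ y) ×ˢ
        (Finset.Icc (1 : ℤ) M).filter (fun y => (p : ℤ) ∣ y),
        ee ((x.2 - x.1) * (θ / p)) * ((a x.1 * a x.2 : ℝ) : ℂ) := by
    have h5 : ∀ s ∈ mul p M, ee (s * (θ / p)) *
        ((∑ y ∈ Finset.Icc (1 : ℤ) M, (1 + bal p y) * (a y * a (y + s)) : ℝ) : ℂ) =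
        ∑ y ∈ (IM M s).filter (fun y => (p : ℤ) ∣ y), ee (s * (θ / p)) *
          (((p : ℝ) * (a y * a (y + s)) : ℝ) : ℂ) := by
      intro s _
      rw [inner_eq a M p ha s, Complex.ofReal_sum, Finset.mul_sum]
    rw [Finset.sum_congr rfl h5, Finset.sum_sigma', Finset.mul_sum]
    symm
    refine Finset.sum_bij' (fun x _ => ⟨x.2 - x.1, x.1⟩) (fun z _ => (z.2, z.2 + z.1)) ?_ ?_ ?_ ?_ ?_
    · rintro ⟨y, y'⟩ hx
      simp only [Finset.mem_product, Finset.mem_filter, Finset.mem_Icc] at hx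
      obtain ⟨⟨⟨h6, h7⟩, h8⟩, ⟨h9, h10⟩, h11⟩ := hx
      simp only [Finset.mem_sigma, mul, IM, Finset.mem_filter, Finset.mem_Icc]
      refine ⟨⟨⟨by omega, by omega⟩, dvd_sub h11 h8⟩, ⟨⟨h6, h7⟩, by omega, by omega⟩, h8⟩
    · rintro ⟨s, y⟩ hz
      simp only [Finset.mem_sigma, mul, IM, Finset.mem_filter, Finset.mem_Icc] at hz
      obtain ⟨⟨⟨h6, h7⟩, h8⟩, ⟨⟨h9, h10⟩, h11, h12⟩, h13⟩ := hz
      simp only [Finset.mem_product, Finset.mem_filter, Finset.mem_Icc]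
      exact ⟨⟨⟨h9, h10⟩, h13⟩, ⟨h11, h12⟩, dvd_add h13 h8⟩
    · rintro ⟨y, y'⟩ _
      simp
    · rintro ⟨s, y⟩ _
      simp
    · rintro ⟨y, y'⟩ _
      simp only
      have h6 : y + (y' - y) = y' := by ring
      rw [h6]
      push_cast
      ring
  have h7 : (p : ℝ) ^ 2 * ‖∑ y ∈ (Finset.Icc (1 : ℤ) M).filter (fun y => (p : ℤ) ∣ y),
      ((a y : ℝ) : ℂ) * ee (y * (θ / p))‖ ^ 2 = (((p : ℝ) : ℂ) * (((p : ℝ) : ℂ) *
        ((‖∑ y ∈ (Finset.Icc (1 : ℤ) M).filter (fun y => (p : ℤ) ∣ y),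
      ((a y : ℝ) : ℂ) * ee (y * (θ / p))‖ ^ 2 : ℝ) : ℂ))).re := by
    rw [Complex.re_ofReal_mul, Complex.re_ofReal_mul, Complex.ofReal_re]
    ring
  rw [h7, h4, h1, Complex.re_ofReal_mul]
  rfl

end Pool.Agent.H42.GUA
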